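import Mathlib

set_option autoImplicit false

namespace Pool.Agent.N437.Cube

open Finset

variable {n : ℕ}

/-- the set of coordinates equal to `1` -/
def ones (x : Fin n → Option Bool) : Finset (Fin n) := univ.filter (fun i => x i = some true)

/-- the flip-bits -/
def flips (x : Fin n → Option Bool) : Finset (Fin n) := univ.filter (fun i => x i = none)

/-- some nonempty subset of `S` has sum zero -/
def Dep {V : Type} [AddCommGroup V] (f : Fin n → V) (S : Finset (Fin n)) : Prop :=
  ∃ A ⊆ S, A.Nonempty ∧ ∑ i ∈ A, f i = 0

open scoped Classical in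
lemma card_sum_zero {V : Type} [AddCommGroup V] [Fintype V] (A : Finset (Fin n))
    (hA : A.Nonempty) :
    (univ.filter (fun f : Fin n → V => ∑ i ∈ A, f i = 0)).card * Fintype.card V ≤
      Fintype.card (Fin n → V) := by
  obtain ⟨a, ha⟩ := hA
  rw [← Finset.card_univ (α := V), ← Finset.card_product, ← Finset.card_univ]
  have key : ∀ (f : Fin n → V) (v : V), ∑ i ∈ A, f i = 0 →
      ∑ i ∈ A, (f + (Pi.single a v : Fin n → V)) i = v := by
    intro f v hf
    simp only [Pi.add_apply, Finset.sum_add_distrib, hf, zero_add]
    rw [Finset.sum_pi_single']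
    simp [ha]
  apply Finset.card_le_card_of_injOn (fun p => p.1 + Pi.single a p.2)
  · intro _ _
    simp
  · rintro ⟨f, v⟩ hf ⟨g, w⟩ hg h
    simp only [coe_product, coe_filter, mem_univ, true_and, coe_univ, Set.mem_prod,
      Set.mem_ofPred_eq, Set.mem_univ, and_true] at hf hg
    simp only at h
    have h1 := key f v hf
    have h2 := key g w hg
    rw [h] at h1
    have hvw : v = w := h1.symm.trans h2
    subst hvw
    simp only [add_left_inj] at h
    rw [h]

open scoped Classical in
lemma card_dep {V : Type} [AddCommGroup V] [Fintype V] (S : Finset (Fin n)) :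
    (univ.filter (fun f : Fin n → V => Dep f S)).card * Fintype.card V ≤
      2 ^ S.card * Fintype.card (Fin n → V) := by
  have h1 : (univ.filter (fun f : Fin n → V => Dep f S)) ⊆
      (S.powerset.filter (fun A => A.Nonempty)).biUnion
        (fun A => univ.filter (fun f : Fin n → V => ∑ i ∈ A, f i = 0)) := by
    intro f hf
    simp only [mem_filter, mem_univ, true_and] at hf
    obtain ⟨A, hAS, hA, hs⟩ := hf
    simp only [mem_biUnion, mem_filter, mem_powerset, mem_univ, true_and]
    exact ⟨A, ⟨hAS, hA⟩, hs⟩
  calc (univ.filter (fun f : Fin n → V => Dep f S)).card * Fintype.card V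
      ≤ ((S.powerset.filter (fun A => A.Nonempty)).biUnion
        (fun A => univ.filter (fun f : Fin n → V => ∑ i ∈ A, f i = 0))).card *
          Fintype.card V := Nat.mul_le_mul_right _ (card_le_card h1)
    _ ≤ (∑ A ∈ S.powerset.filter (fun A => A.Nonempty),
        (univ.filter (fun f : Fin n → V => ∑ i ∈ A, f i = 0)).card) * Fintype.card V :=
          Nat.mul_le_mul_right _ card_biUnion_le
    _ = ∑ A ∈ S.powerset.filter (fun A => A.Nonempty),
        (univ.filter (fun f : Fin n → V => ∑ i ∈ A, f i = 0)).card * Fintype.card V := by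
          rw [Finset.sum_mul]
    _ ≤ ∑ _A ∈ S.powerset.filter (fun A => A.Nonempty), Fintype.card (Fin n → V) := by
          apply Finset.sum_le_sum
          intro A hA
          exact card_sum_zero A (mem_filter.1 hA).2
    _ = (S.powerset.filter (fun A => A.Nonempty)).card * Fintype.card (Fin n → V) := by
          rw [Finset.sum_const, smul_eq_mul]
    _ ≤ 2 ^ S.card * Fintype.card (Fin n → V) := by
          apply Nat.mul_le_mul_right
          rw [← card_powerset]
          exact card_le_card (filter_subset _ _)

/-- the label space of layer `r` -/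
abbrev V (g r : ℕ) : Type := Fin (r + g) → ZMod 2

lemma card_V (g r : ℕ) : Fintype.card (V g r) = 2 ^ (r + g) := by
  simp [V, ZMod.card]

open scoped Classical in
/-- averaging over all labellings of one layer -/
lemma exists_layer (g r : ℕ) (X : Finset (Fin n → Option Bool))
    (hX : ∀ x ∈ X, (ones x).card = r) :
    ∃ f : Fin n → V g r, (X.filter (fun x => Dep f (ones x))).card * 2 ^ g ≤ X.card := by
  by_contra hcon
  push Not at hcon
  have h1 : ∑ f : Fin n → V g r, X.card <
      ∑ f : Fin n → V g r, (X.filter (fun x => Dep f (ones x))).card * 2 ^ g := by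
    apply Finset.sum_lt_sum_of_nonempty ⟨fun _ => 0, mem_univ _⟩
    intro f _
    exact hcon f
  have h2 : ∑ f : Fin n → V g r, (X.filter (fun x => Dep f (ones x))).card =
      ∑ x ∈ X, (univ.filter (fun f : Fin n → V g r => Dep f (ones x))).card := by
    simp only [Finset.card_filter]
    exact Finset.sum_comm
  have h3 : ∑ x ∈ X, (univ.filter (fun f : Fin n → V g r => Dep f (ones x))).card * 2 ^ g ≤
      ∑ _x ∈ X, Fintype.card (Fin n → V g r) := by
    apply Finset.sum_le_sum
    intro x hx
    have h4 := card_dep (V := V g r) (ones x)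
    rw [hX x hx, card_V, pow_add, ← mul_assoc, mul_right_comm, mul_comm (2 ^ r)] at h4
    exact Nat.le_of_mul_le_mul_right h4 (by positivity)
  rw [← Finset.sum_mul, h2] at h1
  rw [← Finset.sum_mul, Finset.sum_const, smul_eq_mul] at h3
  rw [Finset.sum_const, smul_eq_mul, Finset.card_univ, mul_comm] at h1
  omega

/-- the family of bad subcubes for a system of labellings -/
def Bad {g : ℕ} (F : ∀ r : ℕ, Fin n → V g r) (x : Fin n → Option Bool) : Prop :=
  Dep (F (ones x).card) (ones x)

open scoped Classical in
lemma exists_labels (g : ℕ) (X : Finset (Fin n → Option Bool)) :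
    ∃ F : ∀ r : ℕ, Fin n → V g r, (X.filter (fun x => Bad F x)).card * 2 ^ g ≤ X.card := by
  have h := fun r => exists_layer g r (X.filter (fun x => (ones x).card = r))
    (fun x hx => (mem_filter.1 hx).2)
  choose F hF using h
  refine ⟨F, ?_⟩
  have h1 : ∀ Y : Finset (Fin n → Option Bool),
      Y.card = ∑ r ∈ range (n + 1), (Y.filter (fun x => (ones x).card = r)).card := by
    intro Y
    apply Finset.card_eq_sum_card_fiberwise
    intro x _
    simp only [coe_range, Set.mem_Iio]
    have := card_le_univ (ones x)
    simp at this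
    omega
  rw [h1 (X.filter (fun x => Bad F x)), h1 X, Finset.sum_mul]
  apply Finset.sum_le_sum
  intro r _
  refine le_trans (Nat.mul_le_mul_right _ (card_le_card ?_)) (hF r)
  intro x hx
  simp only [mem_filter] at hx ⊢
  obtain ⟨⟨hx1, hx2⟩, hx3⟩ := hx
  refine ⟨⟨hx1, hx3⟩, ?_⟩
  unfold Bad at hx2
  rw [hx3] at hx2
  exact hx2

lemma sum_symmDiff {W : Type} [AddCommGroup W] (h2 : ∀ w : W, w + w = 0)
    (s t : Finset (Fin n)) (f : Fin n → W) :
    ∑ i ∈ symmDiff s t, f i = ∑ i ∈ s, f i + ∑ i ∈ t, f i := by
  have h1 : symmDiff s t = (s \ t) ∪ (t \ s) := rfl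
  rw [h1, Finset.sum_union (disjoint_sdiff_sdiff)]
  have hs : ∑ i ∈ s, f i = ∑ i ∈ s \ t, f i + ∑ i ∈ s ∩ t, f i := by
    rw [← Finset.sum_union (Finset.disjoint_sdiff_inter s t), Finset.sdiff_union_inter]
  have ht : ∑ i ∈ t, f i = ∑ i ∈ t \ s, f i + ∑ i ∈ s ∩ t, f i := by
    rw [inter_comm s t, ← Finset.sum_union (Finset.disjoint_sdiff_inter t s),
      Finset.sdiff_union_inter]
  rw [hs, ht]
  have h3 := h2 (∑ i ∈ s ∩ t, f i)
  calc _ = ∑ i ∈ s \ t, f i + ∑ i ∈ t \ s, f i + 0 := by rw [add_zero]
    _ = _ := by rw [← h3]; abel

/-- every subcube with `62` flip-bits contains a bad `2`-subcube (here `g = 16`) -/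
lemma hit (F : ∀ r : ℕ, Fin n → V 16 r) (C : Fin n → Option Bool)
    (hC : (flips C).card = 62) :
    ∃ D : Fin n → Option Bool, (flips D).card = 2 ∧
      (∀ (i : Fin n) (b : Bool), C i = some b → D i = some b) ∧ Bad F D := by
  classical
  obtain ⟨P, hP1, hP2⟩ := Finset.exists_subset_card_eq (s := flips C) (n := 2) (by omega)
  set D' := flips C \ P with hD'
  have hD'card : D'.card = 60 := by
    rw [hD', card_sdiff_of_subset hP1]
    omega
  set R := ones C with hR
  set r := R.card + 24 with hr
  have hdisj : Disjoint D' R := by
    rw [Finset.disjoint_left]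
    intro i hi hi'
    rw [hD', mem_sdiff, flips, mem_filter] at hi
    rw [hR, ones, mem_filter] at hi'
    rw [hi.1.2] at hi'
    exact absurd hi'.2 (by simp)
  have hcard : (univ : Finset (V 16 r)).card <
      ((D'.powersetCard 12) ×ˢ R.powerset).card := by
    rw [card_product, card_powersetCard, card_powerset, hD'card, card_univ, card_V, hr]
    have h1 : (2 : ℕ) ^ (R.card + 24 + 16) = 2 ^ 40 * 2 ^ R.card := by
      rw [← pow_add]; congr 1; omega
    rw [h1]
    apply Nat.mul_lt_mul_of_pos_right _ (by positivity)
    decide +kernel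
  obtain ⟨p, hp, q, hq, hpq, hsum⟩ := Finset.exists_ne_map_eq_of_card_lt_of_maps_to hcard
    (f := fun p => ∑ i ∈ p.1 ∪ p.2, F r i) (fun _ _ => mem_univ _)
  obtain ⟨B, E⟩ := p
  obtain ⟨B', E'⟩ := q
  simp only [mem_product, mem_powersetCard, mem_powerset] at hp hq
  simp only at hsum
  obtain ⟨⟨hB1, hB2⟩, hE⟩ := hp
  obtain ⟨⟨hB1', hB2'⟩, hE'⟩ := hq
  have hBB : B ∪ B' ⊆ D' := union_subset hB1 hB1'
  have hBBc : (B ∪ B').card ≤ 24 := by
    have := card_union_le B B'
    omega
  obtain ⟨A, hA1, hA2, hA3⟩ := Finset.exists_subsuperset_card_eq hBB hBBc (by omega)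
  have hAR : Disjoint A R := hdisj.mono_left hA2
  have hPR : ∀ i ∈ P, i ∉ R ∪ A := by
    intro i hi hi'
    rw [mem_union] at hi'
    rcases hi' with h | h
    · have h1 := hP1 hi
      rw [flips, mem_filter] at h1
      rw [hR, ones, mem_filter, h1.2] at h
      exact absurd h.2 (by simp)
    · have h1 := hA2 h
      rw [hD', mem_sdiff] at h1
      exact h1.2 hi
  set D : Fin n → Option Bool := fun i => if i ∈ P then none else
    if i ∈ R ∪ A then some true else some false with hDdef
  have hflips : flips D = P := by
    ext i
    rw [flips, mem_filter, hDdef]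
    by_cases h1 : i ∈ P
    · simp [h1]
    · by_cases h2 : i ∈ R ∪ A
      · simp only [mem_univ, true_and, h1, if_false, iff_false, if_pos h2]
        simp
      · simp only [mem_univ, true_and, h1, if_false, iff_false, if_neg h2]
        simp
  have hones : ones D = R ∪ A := by
    ext i
    rw [ones, mem_filter, hDdef]
    by_cases h1 : i ∈ P
    · have h2 := hPR i h1
      simp only [mem_univ, true_and, h1, if_true]
      simp only [reduceCtorEq, false_iff]
      exact h2
    · by_cases h2 : i ∈ R ∪ A
      · simp only [mem_univ, true_and, h1, if_false, if_pos h2]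
        simp [h2]
      · simp only [mem_univ, true_and, h1, if_false, if_neg h2]
        simp only [Option.some.injEq, Bool.false_eq_true, false_iff]
        exact h2
  refine ⟨D, by rw [hflips]; exact hP2, ?_, ?_⟩
  · intro i b hb
    have h1 : i ∉ P := by
      intro h
      have := hP1 h
      rw [flips, mem_filter, hb] at this
      exact absurd this.2 (by simp)
    have h2 : i ∉ A := by
      intro h
      have := hA2 h
      rw [hD', mem_sdiff, flips, mem_filter, hb] at this
      exact absurd this.1.2 (by simp)
    simp only [hDdef, if_neg h1]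
    cases b with
    | true =>
      have h3 : i ∈ R ∪ A := by
        rw [mem_union]
        left
        rw [hR, ones, mem_filter]
        exact ⟨mem_univ _, hb⟩
      rw [if_pos h3]
    | false =>
      have h3 : i ∉ R ∪ A := by
        rw [mem_union]
        rintro (h | h)
        · rw [hR, ones, mem_filter, hb] at h
          exact absurd h.2 (by simp)
        · exact h2 h
      rw [if_neg h3]
  · unfold Bad
    have hc : (ones D).card = r := by
      rw [hones, card_union_of_disjoint hAR.symm, hA3, hr]
    rw [hc, hones]
    refine ⟨symmDiff (B ∪ E) (B' ∪ E'), ?_, ?_, ?_⟩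
    · intro i hi
      rw [mem_symmDiff] at hi
      rw [mem_union]
      have hmem : i ∈ B ∪ E ∨ i ∈ B' ∪ E' := by
        rcases hi with h | h
        · exact Or.inl h.1
        · exact Or.inr h.1
      rcases hmem with h | h
      · rw [mem_union] at h
        rcases h with h | h
        · exact Or.inr (hA1 (mem_union_left _ h))
        · exact Or.inl (hE h)
      · rw [mem_union] at h
        rcases h with h | h
        · exact Or.inr (hA1 (mem_union_right _ h))
        · exact Or.inl (hE' h)
    · rw [Finset.symmDiff_nonempty]
      intro heq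
      apply hpq
      have e1 : B = B' := by
        have : (B ∪ E) ∩ D' = (B' ∪ E') ∩ D' := by rw [heq]
        have t1 : (B ∪ E) ∩ D' = B := by
          ext i
          simp only [mem_inter, mem_union]
          constructor
          · rintro ⟨h | h, h'⟩
            · exact h
            · exact absurd (hE h) (Finset.disjoint_left.1 hdisj h')
          · intro h
            exact ⟨Or.inl h, hB1 h⟩
        have t2 : (B' ∪ E') ∩ D' = B' := by
          ext i
          simp only [mem_inter, mem_union]
          constructor
          · rintro ⟨h | h, h'⟩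
            · exact h
            · exact absurd (hE' h) (Finset.disjoint_left.1 hdisj h')
          · intro h
            exact ⟨Or.inl h, hB1' h⟩
        rw [t1, t2] at this
        exact this
      have e2 : E = E' := by
        have : (B ∪ E) ∩ R = (B' ∪ E') ∩ R := by rw [heq]
        have t1 : (B ∪ E) ∩ R = E := by
          ext i
          simp only [mem_inter, mem_union]
          constructor
          · rintro ⟨h | h, h'⟩
            · exact absurd h' (Finset.disjoint_left.1 hdisj (hB1 h))
            · exact h
          · intro h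
            exact ⟨Or.inr h, hE h⟩
        have t2 : (B' ∪ E') ∩ R = E' := by
          ext i
          simp only [mem_inter, mem_union]
          constructor
          · rintro ⟨h | h, h'⟩
            · exact absurd h' (Finset.disjoint_left.1 hdisj (hB1' h))
            · exact h
          · intro h
            exact ⟨Or.inr h, hE' h⟩
        rw [t1, t2] at this
        exact this
      rw [e1, e2]
    · have h2 : ∀ w : V 16 r, w + w = 0 := by
        intro w
        funext i
        simp only [Pi.add_apply, Pi.zero_apply]
        exact CharTwo.add_self_eq_zero (w i)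
      rw [sum_symmDiff h2, hsum]
      exact h2 _

end Pool.Agent.N437.Cube
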